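import Pool.Agent.Lib.MP_c1e222_an.Iface
import Pool.Agent.Lib.MP_c1e222_an.Bas

/-!
# MP_c1e222_an, row Boot (section 8): the bootstrap, second source
-/

set_option autoImplicit false

namespace Pool.Agent.C1E

open MeasureTheory Set Filter Topology

namespace Boot2

theorem kpos (i : ℕ) : 0 < kap i := by unfold kap; positivity

theorem kmono {i j : ℕ} (h : i ≤ j) : kap i ≤ kap j := by
  unfold kap
  exact mul_le_mul_of_nonneg_left (pow_le_pow_right₀ (by norm_num) h) (by norm_num)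

theorem lt_of_sep {l j : ℕ} (h : Sep l j) : l < j := by
  by_contra hc
  have h1 := kmono (not_lt.1 hc)
  have h2 := kpos l
  unfold Sep at h
  nlinarith

/-- `(a/b)² (T + b) ≤ T + a` -/
theorem ab_le {a b T : ℝ} (ha : 0 < a) (hab : a ≤ b) (hT : 0 ≤ T) :
    (a / b) ^ 2 * ((T + b) * T) ≤ (T + a) * T := by
  have hb : 0 < b := lt_of_lt_of_le ha hab
  have h1 : a / b ≤ 1 := (div_le_one hb).2 hab
  have h0 : 0 ≤ a / b := by positivity
  have h2 : (a / b) ^ 2 ≤ 1 := by nlinarith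
  have h3 : (a / b) ^ 2 * b ≤ a := by
    have : (a / b) ^ 2 * b = a * (a / b) := by field_simp
    rw [this]
    nlinarith
  have h4 : (a / b) ^ 2 * (T + b) ≤ T + a := by nlinarith
  nlinarith

/-- the size of an error term -/
theorem err_le {a b T Λ K e J : ℝ} (ha : 0 < a) (hab : a ≤ b) (hT : 0 ≤ T) (hΛ : 0 ≤ Λ)
    (hK : 0 ≤ K) (hJ : 0 ≤ J) (he : e ≤ K * J / b * Real.sqrt (Λ * (T + b) * T)) :
    a * e ≤ K * J * (Real.sqrt Λ * (T + a)) := by
  have hb : 0 < b := lt_of_lt_of_le ha hab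
  have h1 : a * e ≤ a * (K * J / b * Real.sqrt (Λ * (T + b) * T)) :=
    mul_le_mul_of_nonneg_left he ha.le
  have h2 : a * (K * J / b * Real.sqrt (Λ * (T + b) * T)) =
      K * J * ((a / b) * Real.sqrt (Λ * (T + b) * T)) := by field_simp
  have h3 : (a / b) * Real.sqrt (Λ * (T + b) * T) ≤ Real.sqrt Λ * (T + a) := by
    apply le_of_sq_le_sq
    · rw [mul_pow, mul_pow, Real.sq_sqrt (by positivity), Real.sq_sqrt hΛ]
      have := ab_le ha hab hT
      calc (a / b) ^ 2 * (Λ * (T + b) * T) = Λ * ((a / b) ^ 2 * ((T + b) * T)) := by ring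
        _ ≤ Λ * ((T + a) * T) := mul_le_mul_of_nonneg_left this hΛ
        _ ≤ Λ * (T + a) ^ 2 := by
          apply mul_le_mul_of_nonneg_left _ hΛ
          nlinarith
    · positivity
  rw [h2] at h1
  exact h1.trans (mul_le_mul_of_nonneg_left h3 (by positivity))

end Boot2

open Boot2

theorem boot_proof2 (hMain : MainStatement) (hEr : ErStatement) : BootStatement := by
  classical
  intro M hM E
  obtain ⟨CM, hCM, hMa⟩ := hMain M hM E
  obtain ⟨CE, hCE, hE⟩ := hEr M hM E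
  refine ⟨2 * (1 + CM) + (2 * CM * CE) ^ 2, by positivity, ?_⟩
  intro u r hc t0 t1 ht L hL hHL J hJ hJL l j hl hj hsep
  set T : ℝ := t1 - t0 + 1 with hT
  have hT1 : 1 ≤ T := by rw [hT]; linarith
  set S : Finset (ℕ × ℕ) := (Finset.range J ×ˢ Finset.range J).filter
    (fun p => M ≤ p.1 ∧ Sep p.1 p.2) with hS
  have mem : ∀ a b : ℕ, M ≤ a → b < J → Sep a b → (a, b) ∈ S := by
    intro a b ha hb hs
    rw [hS, Finset.mem_filter, Finset.mem_product, Finset.mem_range, Finset.mem_range]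
    exact ⟨⟨(lt_of_sep hs).trans hb, hb⟩, ha, hs⟩
  have hne : S.Nonempty := ⟨_, mem l j hl hj hsep⟩
  obtain ⟨p, hpS, hp⟩ := Finset.exists_max_image S
    (fun q => X q.1 q.2 u r t0 t1 / (T + (kap q.1) ^ 2)) hne
  set f : ℝ := X p.1 p.2 u r t0 t1 / (T + (kap p.1) ^ 2) with hf
  set Λ : ℝ := max 1 f with hΛ
  have hΛ1 : 1 ≤ Λ := le_max_left _ _
  have hb : ∀ a b : ℕ, M ≤ a → b < J → Sep a b →
      X a b u r t0 t1 ≤ Λ * (T + (kap a) ^ 2) := by
    intro a b ha hb hs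
    have h1 := hp _ (mem a b ha hb hs)
    have h2 : 0 < T + (kap a) ^ 2 := by positivity
    have h3 : X a b u r t0 t1 / (T + (kap a) ^ 2) ≤ Λ := le_trans h1 (le_max_right _ _)
    rwa [div_le_iff₀ h2] at h3
  have hJ0 : (1 : ℝ) ≤ J := by exact_mod_cast hJ
  have hErr : ∀ b : ℕ, M ≤ b → b < J → Err M b u r t0 t1 ≤
      CE * J / (kap b) ^ 2 * Real.sqrt (Λ * (T + (kap b) ^ 2) * T) := by
    intro b hb1 hb2
    exact hE u r hc t0 t1 ht L hL hHL J hJL Λ hΛ1 hb b hb1 hb2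
  set s : ℝ := Real.sqrt Λ with hs
  have hs0 : 0 ≤ s := Real.sqrt_nonneg _
  have hss : s ^ 2 = Λ := Real.sq_sqrt (by linarith)
  have key : ∀ a b : ℕ, M ≤ a → b < J → Sep a b →
      X a b u r t0 t1 ≤ (CM + 2 * CM * CE * J * s) * (T + (kap a) ^ 2) := by
    intro a b ha hb1 hs1
    have hab := lt_of_sep hs1
    have h1 := hMa u r hc a b ha hs1 t0 t1 ht
    have ka := kpos a
    have kab := kmono hab.le
    have ha2 : 0 < (kap a) ^ 2 := by positivity
    have hab2 : (kap a) ^ 2 ≤ (kap b) ^ 2 := pow_le_pow_left₀ ka.le kab 2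
    have e1 := err_le ha2 le_rfl (by linarith : (0 : ℝ) ≤ T) (by linarith : (0 : ℝ) ≤ Λ) hCE.le
      (by linarith : (0 : ℝ) ≤ J) (hErr a ha (hab.trans hb1))
    have e2 := err_le ha2 hab2 (by linarith : (0 : ℝ) ≤ T) (by linarith : (0 : ℝ) ≤ Λ) hCE.le
      (by linarith : (0 : ℝ) ≤ J) (hErr b (ha.trans hab.le) hb1)
    have e3 : CM * (kap a) ^ 2 * (Err M a u r t0 t1 + Err M b u r t0 t1) ≤
        CM * (2 * (CE * J * (s * (T + (kap a) ^ 2)))) := by
      have : CM * (kap a) ^ 2 * (Err M a u r t0 t1 + Err M b u r t0 t1) =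
          CM * ((kap a) ^ 2 * Err M a u r t0 t1 + (kap a) ^ 2 * Err M b u r t0 t1) := by ring
      rw [this]
      apply mul_le_mul_of_nonneg_left _ hCM.le
      linarith
    calc X a b u r t0 t1 ≤ _ := h1
      _ ≤ CM * (T + (kap a) ^ 2) + CM * (2 * (CE * J * (s * (T + (kap a) ^ 2)))) := by
        have : t1 - t0 + 1 = T := hT.symm
        linarith
      _ = _ := by ring
  have hpm := hpS
  rw [hS, Finset.mem_filter, Finset.mem_product, Finset.mem_range, Finset.mem_range] at hpm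
  have hfle : f ≤ CM + 2 * CM * CE * J * s := by
    rw [hf, div_le_iff₀ (by positivity)]
    exact key p.1 p.2 hpm.2.1 hpm.1.2 hpm.2.2
  have hB0 : 0 ≤ 2 * CM * CE * J * s := by positivity
  have hΛle : Λ ≤ (1 + CM) + (2 * CM * CE * J) * s := by
    rw [hΛ]
    apply max_le
    · linarith
    · linarith
  have hΛfin : Λ ≤ (2 * (1 + CM) + (2 * CM * CE) ^ 2) * (J : ℝ) ^ 2 := by
    have h1 : (2 * CM * CE * J) * s ≤ Λ / 2 + (2 * CM * CE * J) ^ 2 / 2 := by
      rw [← hss]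
      nlinarith [sq_nonneg (s - 2 * CM * CE * J)]
    have h2 : Λ ≤ 2 * (1 + CM) + (2 * CM * CE * J) ^ 2 := by linarith
    have h3 : (1 : ℝ) ≤ (J : ℝ) ^ 2 := by nlinarith
    have h4 : 2 * (1 + CM) ≤ 2 * (1 + CM) * (J : ℝ) ^ 2 := by nlinarith
    calc Λ ≤ 2 * (1 + CM) + (2 * CM * CE * J) ^ 2 := h2
      _ ≤ 2 * (1 + CM) * (J : ℝ) ^ 2 + (2 * CM * CE * J) ^ 2 := by linarith
      _ = _ := by ring
  calc X l j u r t0 t1 ≤ Λ * (T + (kap l) ^ 2) := hb l j hl hj hsep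
    _ ≤ _ := mul_le_mul_of_nonneg_right hΛfin (by positivity)

end Pool.Agent.C1E
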